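import Pool.Agent.H44.DV.Targets

/-!
# Module AN: an open invariant set of states contains all states of a side or none
-/

set_option autoImplicit false

namespace Pool.Agent.H53.DV.AN

open Pool.Agent.H44.DU

/-- The end of a gap. -/
lemma gap_exists (I W : Set ℝ)
    (hO : ∀ x, x ∈ I → x ∈ W → ∃ ε > (0 : ℝ), ∀ x', |x' - x| < ε → x' ∈ W)
    (hI : ∀ a b c : ℝ, a ∈ I → c ∈ I → a ≤ b → b ≤ c → b ∈ I)
    (x x' : ℝ) (hx : x ∈ I) (hx' : x' ∈ I) (hW : x ∈ W) (hW' : x' ∉ W) :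
    ∃ (e σ δ : ℝ), e ∈ I ∧ e ∉ W ∧ (σ = 1 ∨ σ = -1) ∧ 0 < δ ∧
      ∀ z, 0 < σ * (z - e) → σ * (z - e) < δ → z ∈ W := by
  rcases lt_trichotomy x x' with h | h | h
  · set A : Set ℝ := {z | x ≤ z ∧ z ≤ x' ∧ z ∉ W} with hA
    have hne : A.Nonempty := ⟨x', h.le, le_refl _, hW'⟩
    have hbd : BddBelow A := ⟨x, fun z hz => hz.1⟩
    have e1 : x ≤ sInf A := le_csInf hne fun z hz => hz.1
    have e2 : sInf A ≤ x' := csInf_le hbd ⟨h.le, le_refl _, hW'⟩
    have eI : sInf A ∈ I := hI _ _ _ hx hx' e1 e2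
    have eW : sInf A ∉ W := by
      intro hc
      obtain ⟨ε, hε, hb⟩ := hO _ eI hc
      obtain ⟨a, haA, ha⟩ := exists_lt_of_csInf_lt hne (show sInf A < sInf A + ε by linarith)
      refine haA.2.2 (hb a ?_)
      have := csInf_le hbd haA
      rw [abs_lt]; constructor <;> linarith
    have e3 : x < sInf A := lt_of_le_of_ne e1 (fun hc => eW (hc ▸ hW))
    refine ⟨sInf A, -1, sInf A - x, eI, eW, Or.inr rfl, by linarith, ?_⟩
    intro z hz1 hz2
    by_contra hc
    have h1 : z ∈ A := ⟨by linarith, by linarith, hc⟩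
    have h2 := csInf_le hbd h1
    linarith
  · exact absurd (h ▸ hW) hW'
  · set A : Set ℝ := {z | x' ≤ z ∧ z ≤ x ∧ z ∉ W} with hA
    have hne : A.Nonempty := ⟨x', le_refl _, h.le, hW'⟩
    have hbd : BddAbove A := ⟨x, fun z hz => hz.2.1⟩
    have e1 : sSup A ≤ x := csSup_le hne fun z hz => hz.2.1
    have e2 : x' ≤ sSup A := le_csSup hbd ⟨le_refl _, h.le, hW'⟩
    have eI : sSup A ∈ I := hI _ _ _ hx' hx e2 e1
    have eW : sSup A ∉ W := by
      intro hc
      obtain ⟨ε, hε, hb⟩ := hO _ eI hc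
      obtain ⟨a, haA, ha⟩ := exists_lt_of_lt_csSup hne (show sSup A - ε < sSup A by linarith)
      refine haA.2.2 (hb a ?_)
      have := le_csSup hbd haA
      rw [abs_lt]; constructor <;> linarith
    have e3 : sSup A < x := lt_of_le_of_ne e1 (fun hc => eW (hc ▸ hW))
    refine ⟨sSup A, 1, x - sSup A, eI, eW, Or.inl rfl, by linarith, ?_⟩
    intro z hz1 hz2
    by_contra hc
    have h1 : z ∈ A := ⟨by linarith, by linarith, hc⟩
    have h2 := le_csSup hbd h1
    linarith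

theorem pf_AN (h1 : D_GF) (h2 : D_NS) (h3 : D_RR) (h4 : T_IO) : D_AN := by
  intro n S t c hok V hV hO hP r x x' hx hx' hxV
  by_contra hx'V
  have hrr : S.rev.rev = S := (h3 n S t).1
  obtain ⟨e, σ, δ, eI, eV, hσ, hδ, hgap⟩ :=
    gap_exists {z | S.InJ t r z} {z | (r, z) ∈ V} (fun z hz hzV => hO r z hz hzV)
      (fun a b c ha hc hab hbc => ⟨ha.1.trans_le hab, hbc.trans_lt hc.2⟩) x x' hx hx' hxV hx'V
  have eV' : (r, e) ∉ V := eV
  rcases h2 n S t hok.gd r e eI with ⟨y, hy, hy0⟩ | ⟨y, hy, hy0⟩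
  · refine h1 n S t c hok.gd hok.pos hok.gain hok.nw V hV hO hP y hy (by rw [hy0]; exact eV') σ δ
      hσ hδ ?_
    rw [hy0]
    exact hgap
  · -- the reversed surface
    set V' : Set (Side n × ℝ) := {p | S.rev.io t p ∈ V} with hV'
    have io_io : ∀ p, S.rev.io t (S.io t p) = p := (h4 n S t).1
    have hinv : ∀ p q : Side n × ℝ, S.rev.Tr t p q → (p ∈ V' ↔ q ∈ V') := by
      intro p q hpq
      have := ((h4 n S.rev t).2 p q).1 hpq
      rw [hrr] at this
      exact (hV _ _ this).symm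
    have hopen : ∀ (s : Side n) (z : ℝ), S.rev.InJ t s z → (s, z) ∈ V' →
        ∃ ε > (0 : ℝ), ∀ z', |z' - z| < ε → (s, z') ∈ V' := by
      intro s z hz hzV
      have h5 := ((h3 n S.rev t).2.2.2 s z).1 hz
      rw [hrr] at h5
      obtain ⟨ε, hε, hb⟩ := hO _ _ h5 hzV
      have ha : 0 < S.rev.a s := S.rev.a_pos s
      refine ⟨ε / S.rev.a s, div_pos hε ha, fun z' hz' => ?_⟩
      refine hb _ ?_
      have h6 : -S.rev.mv t s z' - -S.rev.mv t s z = -(S.rev.a s * (z' - z)) := by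
        simp only [Surf.mv]; ring
      rw [h6, abs_neg, abs_mul, abs_of_pos ha]
      rw [lt_div_iff₀ ha] at hz'
      linarith [mul_comm (S.rev.a s) |z' - z|]
    have hper : ∀ p ∈ S.rev.TPer t, p ∈ V' := by
      intro p hp
      have h5 := ((h3 n S.rev t).2.1 p).1 hp
      rw [hrr] at h5
      exact hP _ h5
    have hchain : ∀ k, S.rev.Tr t (S.io t (y k)) (S.io t (y (k + 1))) := fun k =>
      ((h4 n S t).2 (y (k + 1)) (y k)).1 (hy k)
    have h0 : S.io t (y 0) ∉ V' := by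
      intro hc
      have : S.rev.io t (S.io t (y 0)) ∈ V := hc
      rw [io_io, hy0] at this
      exact eV' this
    have ha : 0 < S.a r := S.a_pos r
    refine h1 n S.rev t c hok.gdr hok.pos hok.gainr hok.nwr V' hinv hopen hper
      (fun k => S.io t (y k)) hchain h0 (-σ) (S.a r * δ) ?_ (mul_pos ha hδ) ?_
    · rcases hσ with h | h
      · right; rw [h]
      · left; rw [h]; norm_num
    · intro z hz1 hz2
      have hio : S.io t (y 0) = (S.gl r, -S.mv t r e) := by rw [hy0]; rfl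
      simp only [hio] at hz1 hz2 ⊢
      set u : ℝ := S.mv t (S.gl r) (-z) with hu
      have hz : z = -S.mv t r u := by rw [hu, S.mv_gl']; ring
      have h5 : (S.gl r, z) = S.io t (r, u) := by rw [hz]; rfl
      have h6 : -σ * (z - -S.mv t r e) = S.a r * (σ * (u - e)) := by
        rw [hz]; simp only [Surf.mv]; ring
      rw [h6] at hz1 hz2
      change S.rev.io t (S.gl r, z) ∈ V
      rw [h5, io_io]
      refine hgap u ?_ ?_
      · exact (mul_pos_iff_of_pos_left ha).1 hz1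
      · exact lt_of_mul_lt_mul_left hz2 ha.le

end Pool.Agent.H53.DV.AN
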